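import Pool.Agent.Lib.MP_6bc78b_nt.LW.Iface
import Pool.Agent.Lib.MP_6bc78b_nt.H11.ExpSum
import Pool.Agent.Lib.MP_6bc78b_nt.MS.P1.Good

/-! Project LW, module W5: the weighted number of zeros in a window, and the far zeros. -/

set_option autoImplicit false

open Complex Filter Topology MeasureTheory ArithmeticFunction

namespace Pool.Agent.Lib.MP_6bc78b_nt.LW.H59

open Pool.Agent.Lib.MP_6bc78b_nt
open Pool.Agent.Lib.MP_6bc78b_nt.MS Pool.Agent.Lib.MP_6bc78b_nt.MS.P1
open Pool.Agent.Lib.MP_6bc78b_nt.MS.P5 Pool.Agent.Lib.MP_6bc78b_nt.MS.P5.HM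
open Pool.Agent.Lib.MP_6bc78b_nt.H11 (zeros_in_compact_finite mult_window)

lemma zset_finite (t : ℝ) : (zset t).Finite := by
  refine (zeros_in_compact_finite (|t| / 2 + |2 * t|)).subset ?_
  rintro γ ⟨h1, h2, h3⟩
  refine ⟨?_, h3⟩
  rw [abs_le]
  have e1 : -(|t| / 2) ≤ t / 2 := by linarith [neg_abs_le t]
  have e2 : 0 ≤ |t| := abs_nonneg t
  have e3 : 0 ≤ |2 * t| := abs_nonneg _
  have e4 := le_abs_self (2 * t)
  constructor <;> linarith

/-- the sum over the zeros is real -/
lemma ZL_one (hG : GauLStatement) (t H : ℝ) :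
    ZL t H (fun _ => 1) = ((∑ᶠ γ ∈ zset t, (mz γ : ℝ) * wl t H γ : ℝ) : ℂ) := by
  have h := (Complex.ofRealHom : ℝ →+* ℂ).toAddMonoidHom.map_finsum_mem
    (fun γ => (mz γ : ℝ) * wl t H γ) (zset_finite t)
  have h2 : ((∑ᶠ γ ∈ zset t, (mz γ : ℝ) * wl t H γ : ℝ) : ℂ) =
      ∑ᶠ γ ∈ zset t, (((mz γ : ℝ) * wl t H γ : ℝ) : ℂ) := h
  rw [h2]
  unfold ZL
  apply finsum_mem_congr rfl
  intro γ _
  rw [hG.2.2.1]
  push_cast
  ring

lemma wl_nonneg (t H y : ℝ) : 0 ≤ wl t H y := (Real.exp_pos _).le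

lemma wl_cont (t H : ℝ) : Continuous (wl t H) := by
  unfold wl
  fun_prop

lemma half_cast (y : ℝ) : (((1 / 2 : ℝ) : ℂ) + y * I) = 1 / 2 + y * I := by
  push_cast
  ring

/-- the mass of the weight -/
lemma VI_half (hG : GauLStatement) (t H : ℝ) (hH : 0 < H) :
    VI (1 / 2) (fun s => (1 : ℂ) * WL t H s) = (cL H : ℂ) := by
  have h := (hG.2.2.2 t H (1 / 2) 1 hH one_pos).2
  have e : (fun s => (1 : ℂ) * WL t H s) = fun s => WL t H s * ((1 : ℝ) : ℂ) ^ (-s) := by
    funext s
    rw [Complex.ofReal_one, Complex.one_cpow]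
    ring
  rw [e, h]
  simp

/-- `ω` on the critical line. -/
lemma om_half (C : ℝ) (hC : ∀ s : ℂ, 0 < s.re → s.re ≤ 2 → 1 ≤ s.im →
    ‖om s - (Real.log (s.im / (2 * Real.pi)) : ℂ)‖ ≤ C / s.im) (T t y : ℝ)
    (hT : 4 ≤ T) (hTC : 4 * C ≤ T) (h1 : T / 2 ≤ t) (h2 : t ≤ 4 * T) (h3 : t / 2 ≤ y)
    (h4 : y ≤ 2 * t) : ‖om (1 / 2 + y * I) - (Real.log T : ℂ)‖ ≤ 5 := by
  have hy : T / 4 ≤ y := by linarith
  have hy1 : 1 ≤ y := by linarith
  have e1 : (1 / 2 + y * I : ℂ).re = 1 / 2 := by simp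
  have e2 : (1 / 2 + y * I : ℂ).im = y := by simp
  have h5 := hC (1 / 2 + y * I) (by rw [e1]; norm_num) (by rw [e1]; norm_num) (by rw [e2]; exact hy1)
  rw [e2] at h5
  have h6 : C / y ≤ 1 := by rw [div_le_one (by linarith)]; linarith
  have hT0 : 0 < T := by linarith
  have hp := Real.pi_pos
  have hp3 := Real.pi_gt_three
  have hp4 := Real.pi_lt_four
  have h7 : ‖(Real.log (y / (2 * Real.pi)) : ℂ) - (Real.log T : ℂ)‖ ≤ 4 := by
    rw [← Complex.ofReal_sub, Complex.norm_real, Real.norm_eq_abs,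
      ← Real.log_div (by positivity) (by positivity), abs_le]
    have hexp : (32 : ℝ) ≤ Real.exp 4 := by
      have e3 : Real.exp 4 = Real.exp 1 ^ 4 := by rw [← Real.exp_nat_mul]; norm_num
      rw [e3]
      have := Real.exp_one_gt_d9
      calc (32 : ℝ) ≤ 2.7 ^ 4 := by norm_num
        _ ≤ Real.exp 1 ^ 4 := by
            gcongr
            linarith
    constructor
    · rw [Real.le_log_iff_exp_le (by positivity), Real.exp_neg]
      calc (Real.exp 4)⁻¹ ≤ (32 : ℝ)⁻¹ := by gcongr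
        _ ≤ y / (2 * Real.pi) / T := by
            rw [div_div, le_div_iff₀ (by positivity)]
            nlinarith
    · rw [Real.log_le_iff_le_exp (by positivity)]
      refine le_trans ?_ hexp
      rw [div_div, div_le_iff₀ (by positivity)]
      nlinarith
  calc ‖om (1 / 2 + y * I) - (Real.log T : ℂ)‖
      = ‖(om (1 / 2 + y * I) - (Real.log (y / (2 * Real.pi)) : ℂ)) +
        ((Real.log (y / (2 * Real.pi)) : ℂ) - (Real.log T : ℂ))‖ := by ring_nf
    _ ≤ 1 + 4 := (norm_add_le _ _).trans (add_le_add (h5.trans h6) h7)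
    _ = 5 := by norm_num

/-- the `ω`-integral -/
lemma om_part (hG : GauLStatement) (hchi : ChiStatement) (C : ℝ)
    (hC : ∀ s : ℂ, 0 < s.re → s.re ≤ 2 → 1 ≤ s.im →
    ‖om s - (Real.log (s.im / (2 * Real.pi)) : ℂ)‖ ≤ C / s.im) (T t H : ℝ)
    (hT : 4 ≤ T) (hTC : 4 * C ≤ T) (h1 : T / 2 ≤ t) (h2 : t ≤ 4 * T) (hH : 1 ≤ H)
    (htl : ‖VI (1 / 2) (fun s => (1 : ℂ) * WL t H s) -
      VF (1 / 2) t (fun s => (1 : ℂ) * WL t H s)‖ ≤ 1 / T) :
    ‖VF (1 / 2) t (fun s => om s * 1 * WL t H s) - ((cL H * Real.log T : ℝ) : ℂ)‖ ≤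
      5 * cL H + 6 := by
  rw [VI_half hG t H (by linarith)] at htl
  have hT0 : 0 < T := by linarith
  have ht0 : 0 < t := by linarith
  have hp := Real.pi_pos
  have hTinv : 1 / T ≤ 1 := by rw [div_le_one hT0]; linarith
  -- the real integral
  set J : ℝ := (1 / (2 * Real.pi)) * ∫ y in (t / 2)..(2 * t), wl t H y with hJ
  have hVJ : VF (1 / 2) t (fun s => (1 : ℂ) * WL t H s) = (J : ℂ) := by
    unfold VF
    rw [hJ]
    push_cast
    rw [← intervalIntegral.integral_ofReal]
    congr 2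
    funext y
    rw [one_mul, hG.2.2.1 t H y]
  rw [hVJ, ← Complex.ofReal_sub, Complex.norm_real, Real.norm_eq_abs] at htl
  have hJ1 : |cL H - J| ≤ 1 := htl.trans hTinv
  have hle : t / 2 ≤ 2 * t := by linarith
  have hlog : 0 ≤ Real.log T := Real.log_nonneg (by linarith)
  have hlogT : Real.log T * (1 / T) ≤ 1 := by
    rw [mul_one_div, div_le_one hT0]
    have := Real.log_le_sub_one_of_pos hT0
    linarith
  -- continuity
  have hc : ContinuousOn (fun y : ℝ => om (1 / 2 + y * I)) (Set.uIcc (t / 2) (2 * t)) := by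
    intro y hy
    rw [Set.uIcc_of_le hle] at hy
    have hd : DifferentiableAt ℂ om (1 / 2 + y * I) :=
      H51.om_diff hchi _ (by simp) (by
        have : (1 / 2 + y * I : ℂ).im = y := by simp
        rw [this]
        have := hy.1
        intro h
        linarith)
    have hl : ContinuousAt (fun y : ℝ => (1 / 2 + y * I : ℂ)) y := by fun_prop
    exact (ContinuousAt.comp (f := fun y : ℝ => (1 / 2 + y * I : ℂ)) (g := om)
      hd.continuousAt hl).continuousWithinAt
  have hw : Continuous (fun y : ℝ => (wl t H y : ℂ)) :=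
    Complex.continuous_ofReal.comp (wl_cont t H)
  have e1 : VF (1 / 2) t (fun s => om s * 1 * WL t H s) - ((J * Real.log T : ℝ) : ℂ) =
      (1 / (2 * Real.pi) : ℂ) * ∫ y in (t / 2)..(2 * t),
        (om (1 / 2 + y * I) - (Real.log T : ℂ)) * (wl t H y : ℂ) := by
    have e2 : (∫ y in (t / 2)..(2 * t), (om (1 / 2 + y * I) - (Real.log T : ℂ)) * (wl t H y : ℂ)) =
        (∫ y in (t / 2)..(2 * t), om (1 / 2 + y * I) * (wl t H y : ℂ)) -
          ∫ y in (t / 2)..(2 * t), (Real.log T : ℂ) * (wl t H y : ℂ) := by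
      rw [← intervalIntegral.integral_sub]
      · congr 1
        funext y
        ring
      · exact (hc.mul hw.continuousOn).intervalIntegrable
      · exact (continuous_const.mul hw).intervalIntegrable _ _
    rw [e2, intervalIntegral.integral_const_mul, intervalIntegral.integral_ofReal, mul_sub]
    unfold VF
    have e3 : (∫ y in (t / 2)..(2 * t), om (((1 / 2 : ℝ) : ℂ) + y * I) * 1 *
        WL t H (((1 / 2 : ℝ) : ℂ) + y * I)) =
        ∫ y in (t / 2)..(2 * t), om (1 / 2 + y * I) * (wl t H y : ℂ) := by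
      congr 1
      funext y
      rw [half_cast, hG.2.2.1 t H y, mul_one]
    rw [e3, hJ]
    push_cast
    ring
  have e4 : ‖VF (1 / 2) t (fun s => om s * 1 * WL t H s) - ((J * Real.log T : ℝ) : ℂ)‖ ≤ 5 * J := by
    rw [e1, norm_mul]
    have e5 : ‖(1 / (2 * Real.pi) : ℂ)‖ = 1 / (2 * Real.pi) := by
      rw [show (1 / (2 * Real.pi) : ℂ) = ((1 / (2 * Real.pi) : ℝ) : ℂ) by push_cast; rfl,
        Complex.norm_real, Real.norm_eq_abs, abs_of_pos (by positivity)]
    rw [e5]
    have e6 : ‖∫ y in (t / 2)..(2 * t), (om (1 / 2 + y * I) - (Real.log T : ℂ)) * (wl t H y : ℂ)‖ ≤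
        ∫ y in (t / 2)..(2 * t), 5 * wl t H y := by
      apply intervalIntegral.norm_integral_le_of_norm_le hle
      · filter_upwards with y hy
        rw [norm_mul, Complex.norm_real, Real.norm_eq_abs, abs_of_nonneg (wl_nonneg t H y)]
        gcongr
        · exact wl_nonneg t H y
        · exact om_half C hC T t y hT hTC h1 h2 hy.1.le hy.2
      · exact ((wl_cont t H).const_mul 5).intervalIntegrable _ _
    rw [intervalIntegral.integral_const_mul] at e6
    calc 1 / (2 * Real.pi) * _ ≤ 1 / (2 * Real.pi) *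
        (5 * ∫ y in (t / 2)..(2 * t), wl t H y) := by gcongr
      _ = 5 * J := by rw [hJ]; ring
  have hJ2 := abs_le.1 hJ1
  have e7 : ‖((J * Real.log T : ℝ) : ℂ) - ((cL H * Real.log T : ℝ) : ℂ)‖ ≤ 1 := by
    rw [← Complex.ofReal_sub, Complex.norm_real, Real.norm_eq_abs, ← sub_mul, abs_mul,
      abs_of_nonneg hlog, abs_sub_comm]
    calc |cL H - J| * Real.log T ≤ (1 / T) * Real.log T := by gcongr
      _ ≤ 1 := by linarith
  calc ‖VF (1 / 2) t (fun s => om s * 1 * WL t H s) - ((cL H * Real.log T : ℝ) : ℂ)‖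
      = ‖(VF (1 / 2) t (fun s => om s * 1 * WL t H s) - ((J * Real.log T : ℝ) : ℂ)) +
        (((J * Real.log T : ℝ) : ℂ) - ((cL H * Real.log T : ℝ) : ℂ))‖ := by ring_nf
    _ ≤ 5 * J + 1 := (norm_add_le _ _).trans (add_le_add e4 e7)
    _ ≤ 5 * cL H + 6 := by linarith

/-- CNL -/
theorem cnL (hZ : ZsfLStatement) (hTl : TailLStatement) (hMov : MovLStatement)
    (hE : Edg0LStatement) (hG : GauLStatement) (hcho : OmAsympStatement) (hLS : LSerStatement)
    (hchi : ChiStatement) : CnLStatement := by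
  intro a0 ε ha0 ha1 hε
  obtain ⟨c, hc1, hc2⟩ : ∃ c : ℝ, 1 < c ∧ c < 3 / 2 := ⟨5 / 4, by norm_num, by norm_num⟩
  set K : ℝ := max (AN c La) 1 with hK
  have hKLa : AN c La ≤ K := le_max_left _ _
  obtain ⟨C, hC0, hC⟩ := hcho
  obtain ⟨Z0, hZ0⟩ := hZ 1 c a0 hc1 hc2 ha0 ha1
  obtain ⟨L0, hL0⟩ := hTl 1 c a0 (by linarith) (by linarith) ha0 ha1
  obtain ⟨L1, hL1⟩ := hTl 1 (1 / 2) a0 (by norm_num) (by norm_num) ha0 ha1
  obtain ⟨M0, hM0⟩ := hMov 1 c a0 hc1 hc2 ha0 ha1
  obtain ⟨E0, hE0⟩ := hE 1 c a0 hc1 hc2 ha0 ha1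
  refine ⟨max (max (max Z0 L0) (max L1 M0)) (max (max E0 (max 4 (4 * C)))
    (max K (Real.exp (100 / ε)))), fun T t H hT hR => ?_⟩
  have l1 : Z0 ≤ T := ((le_max_left _ _).trans ((le_max_left _ _).trans (le_max_left _ _))).trans hT
  have l2 : L0 ≤ T := ((le_max_right _ _).trans ((le_max_left _ _).trans (le_max_left _ _))).trans hT
  have l3 : L1 ≤ T := ((le_max_left _ _).trans ((le_max_right _ _).trans (le_max_left _ _))).trans hT
  have l4 : M0 ≤ T := ((le_max_right _ _).trans ((le_max_right _ _).trans (le_max_left _ _))).trans hT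
  have l5 : E0 ≤ T := ((le_max_left _ _).trans ((le_max_left _ _).trans (le_max_right _ _))).trans hT
  have l6 : 4 ≤ T := ((le_max_left _ _).trans ((le_max_right _ _).trans
    ((le_max_left _ _).trans (le_max_right _ _)))).trans hT
  have l7 : 4 * C ≤ T := ((le_max_right _ _).trans ((le_max_right _ _).trans
    ((le_max_left _ _).trans (le_max_right _ _)))).trans hT
  have l8 : K ≤ T := ((le_max_left _ _).trans ((le_max_right _ _).trans (le_max_right _ _))).trans hT
  have l9 : Real.exp (100 / ε) ≤ T :=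
    ((le_max_right _ _).trans ((le_max_right _ _).trans (le_max_right _ _))).trans hT
  have hT0 : 0 < T := by linarith
  have hTinv : 1 / T ≤ 1 := by rw [div_le_one hT0]; linarith
  obtain ⟨r1, r2, r3, r4⟩ := id hR
  have hH1 : 1 ≤ H := (Real.one_le_rpow (by linarith) ha0.le).trans r3
  have ht0 : 0 < t := by linarith
  obtain ⟨hALa, -, -⟩ := hLS.2.2.2.1 c hc1
  have hline : Continuous (fun y : ℝ => (c + y * I : ℂ)) := by fun_prop
  have hre : ∀ y : ℝ, (c + y * I : ℂ).re = c := by intro y; simp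
  have hWc : Continuous (WL t H) := by unfold WL; fun_prop
  have hzeta : ∀ y : ℝ, ‖logDeriv riemannZeta (c + y * I)‖ ≤ T := by
    intro y
    have h1 := ZBB.norm_LS_le La c hALa (c + y * I) (hre y)
    rw [hLS.1 _ (by rw [hre]; exact hc1), norm_neg] at h1
    exact h1.trans (hKLa.trans l8)
  have hT1 : (0 : ℝ) ≤ T ^ (1 : ℝ) := by positivity
  have hT1' : (1 : ℝ) ≤ T ^ (1 : ℝ) := by rw [Real.rpow_one]; linarith
  -- the zero sum
  have hz := hZ0 T t H l1 hR (fun _ => 1) (differentiableOn_const _) (fun s _ => by simpa using hT1')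
  have hmv := hM0 T t H l4 hR (fun _ => 1) (differentiableOn_const _) (fun s _ => by simpa using hT1')
  obtain ⟨i1, t1⟩ := hL0 T t H l2 hR (fun s => logDeriv riemannZeta s)
    (ZBB.meas_zeta c hc1).aestronglyMeasurable (fun y => by
      refine (hzeta y).trans ?_
      rw [Real.rpow_one, Real.rpow_one]
      nlinarith [mul_nonneg hT0.le (abs_nonneg y)])
  obtain ⟨-, t2⟩ := hL1 T t H l3 hR (fun _ => 1) aestronglyMeasurable_const (fun y => by
      rw [norm_one, Real.rpow_one, Real.rpow_one]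
      nlinarith [mul_nonneg hT0.le (abs_nonneg y)])
  have he := hE0 T t H l5 hR La (by simp [La]) hALa (by
    rw [Real.rpow_one]; exact hKLa.trans l8)
  have hVI : VI c (fun s => LS La s * WL t H s) = - VI c (fun s => logDeriv riemannZeta s * WL t H s) := by
    rw [← ZBB.VI_neg]
    apply ZBB.VI_congr
    intro y
    rw [hLS.1 _ (by rw [hre]; exact hc1)]
    ring
  rw [hVI, norm_neg] at he
  have hom := om_part hG hchi C hC T t H l6 l7 r1 r2 hH1 t2
  set V1 := VF c t (fun s => logDeriv riemannZeta s * WL t H s) with hV1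
  set V3 := VF c t (fun s => om s * 1 * WL t H s) with hV3
  set V4 := VF (1 / 2) t (fun s => om s * 1 * WL t H s) with hV4
  have hV1n : ‖V1‖ ≤ 2 := by
    calc ‖V1‖ = ‖VI c (fun s => logDeriv riemannZeta s * WL t H s) -
          (VI c (fun s => logDeriv riemannZeta s * WL t H s) - V1)‖ := by ring_nf
      _ ≤ 1 / T + 1 / T := (norm_sub_le _ _).trans (add_le_add he t1)
      _ ≤ 2 := by linarith
  have hV2 : VF c t (fun s => (om s + logDeriv riemannZeta s) *
      (starRingEnd ℂ) ((fun _ => (1 : ℂ)) (1 - (starRingEnd ℂ) s)) * WL t H s) = V3 + V1 := by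
    rw [hV3, hV1]
    unfold VF
    rw [← mul_add, ← intervalIntegral.integral_add]
    · congr 1
      apply intervalIntegral.integral_congr
      intro y _
      simp only [map_one]
      ring
    · apply ContinuousOn.intervalIntegrable
      intro y hy
      rw [Set.uIcc_of_le (by linarith)] at hy
      have h1 : DifferentiableAt ℂ om (c + y * I) :=
        H51.om_diff hchi _ (by rw [hre]; linarith) (by
          have : (c + y * I : ℂ).im = y := by simp
          rw [this]
          have := hy.1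
          intro h
          linarith)
      have h2 : ContinuousAt (fun y : ℝ => om (c + y * I)) y :=
        ContinuousAt.comp (f := fun y : ℝ => (c + y * I : ℂ)) (g := om)
          h1.continuousAt hline.continuousAt
      exact ((h2.mul continuousAt_const).mul (hWc.comp hline).continuousAt).continuousWithinAt
    · exact i1.intervalIntegrable
  have hV1' : VF c t (fun s => logDeriv riemannZeta s * (fun _ => (1 : ℂ)) s * WL t H s) = V1 := by
    rw [hV1]
    congr 1
    funext s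
    simp only [mul_one]
  rw [hV2, hV1', ZL_one hG] at hz
  set N : ℝ := ∑ᶠ γ ∈ zset t, (mz γ : ℝ) * wl t H γ with hN
  have hre1 : |N - (V1 + (starRingEnd ℂ) (V3 + V1)).re| ≤ 1 := by
    have h1 := Complex.abs_re_le_norm ((N : ℂ) - (V1 + (starRingEnd ℂ) (V3 + V1)))
    rw [Complex.sub_re, Complex.ofReal_re] at h1
    exact h1.trans hz
  have hre2 : |V3.re - V4.re| ≤ 1 := by
    have h1 := Complex.abs_re_le_norm (V3 - V4)
    rw [Complex.sub_re] at h1
    exact h1.trans hmv
  have hre3 : |V4.re - cL H * Real.log T| ≤ 5 * cL H + 6 := by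
    have h1 := Complex.abs_re_le_norm (V4 - ((cL H * Real.log T : ℝ) : ℂ))
    rw [Complex.sub_re, Complex.ofReal_re] at h1
    exact h1.trans hom
  have hre4 : |V1.re| ≤ 2 := (Complex.abs_re_le_norm V1).trans hV1n
  rw [Complex.add_re, Complex.conj_re, Complex.add_re] at hre1
  rw [abs_le] at hre1 hre2 hre3 hre4
  have hlog : 100 / ε ≤ Real.log T := by
    rw [Real.le_log_iff_exp_le hT0]
    exact l9
  have hcL : 1 / 4 ≤ cL H := by
    unfold cL
    have hs : Real.sqrt Real.pi ≤ 2 := by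
      rw [Real.sqrt_le_left (by norm_num)]
      have := Real.pi_lt_four
      linarith
    have hs0 : 0 < Real.sqrt Real.pi := Real.sqrt_pos.2 Real.pi_pos
    rw [div_le_div_iff₀ (by norm_num) (by positivity)]
    nlinarith
  have hkey : 5 * cL H + 12 ≤ ε * (cL H * Real.log T) := by
    have h1 : 100 ≤ ε * Real.log T := by
      rw [div_le_iff₀ hε] at hlog
      linarith
    have h2 : cL H * 100 ≤ cL H * (ε * Real.log T) := by
      apply mul_le_mul_of_nonneg_left h1
      linarith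
    nlinarith
  constructor
  · linarith [hre1.1, hre1.2, hre2.1, hre2.2, hre3.1, hre3.2, hre4.1, hre4.2]
  · linarith [hre1.1, hre1.2, hre2.1, hre2.2, hre3.1, hre3.2, hre4.1, hre4.2]

end Pool.Agent.Lib.MP_6bc78b_nt.LW.H59
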