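import Pool.Agent.Lib.MP_6bc78b_nt.LW.H59.Cnl

/-! Project LW, module W5, second part: the zeros far from the centre of the window. -/

set_option autoImplicit false

open Complex Filter Topology MeasureTheory ArithmeticFunction

namespace Pool.Agent.Lib.MP_6bc78b_nt.LW.H59

open Pool.Agent.Lib.MP_6bc78b_nt
open Pool.Agent.Lib.MP_6bc78b_nt.MS Pool.Agent.Lib.MP_6bc78b_nt.MS.P1
open Pool.Agent.Lib.MP_6bc78b_nt.H11 (zeros_in_compact_finite mult_window)

/-- crude count of the zeros -/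
lemma count_zeros : ∃ K T0 : ℝ, 0 < K ∧ 4 ≤ T0 ∧ ∀ t : ℝ, T0 ≤ t → ∀ S : Finset ℝ,
    (∀ γ ∈ S, γ ∈ zset t) → ∑ γ ∈ S, (mz γ : ℝ) ≤ K * t ^ 2 := by
  classical
  obtain ⟨T1, hT1, hm⟩ := mult_window
  set K := Real.cosh (Real.pi / 2) with hK
  have hK0 : 0 < K := Real.cosh_pos _
  refine ⟨9 * K, 2 * T1 + 2, by positivity, by linarith, fun t ht S hS => ?_⟩
  have ht0 : 0 < t := by linarith
  rw [← Finset.sum_fiberwise_of_maps_to (t := Finset.Icc (1 : ℤ) ⌊2 * t + 1⌋) (g := round)]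
  · have h1 : ∀ n ∈ Finset.Icc (1 : ℤ) ⌊2 * t + 1⌋,
        ∑ γ ∈ S.filter (fun γ => round γ = n), (mz γ : ℝ) ≤ K * (3 * t) := by
      intro n hn
      rw [Finset.mem_Icc] at hn
      rcases Finset.eq_empty_or_nonempty (S.filter (fun γ => round γ = n)) with h0 | ⟨γ0, h0⟩
      · rw [h0, Finset.sum_empty]
        positivity
      · rw [Finset.mem_filter] at h0
        have hz := hS γ0 h0.1
        have h2 := abs_sub_round γ0
        rw [h0.2] at h2
        have h3 := abs_le.1 h2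
        have hn1 : T1 ≤ (n : ℝ) := by linarith [hz.1]
        have hn2 : (n : ℝ) ≤ 3 * t := by linarith [hz.2.1]
        have h4 := hm n (by rw [abs_of_pos (by linarith)]; exact hn1)
          (S.filter (fun γ => round γ = n)) (fun γ hγ => by
            rw [Finset.mem_filter] at hγ
            rw [← hγ.2]
            exact abs_sub_round γ)
        rw [abs_of_pos (by linarith)] at h4
        simp_rw [mz_eq]
        refine h4.trans (mul_le_mul_of_nonneg_left ?_ hK0.le)
        exact (Real.log_le_self (by linarith)).trans hn2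
    refine (Finset.sum_le_sum h1).trans ?_
    rw [Finset.sum_const, Int.card_Icc, nsmul_eq_mul]
    have h5 : (((⌊2 * t + 1⌋ + 1 - 1).toNat : ℕ) : ℝ) ≤ 3 * t := by
      have h6 : (0 : ℤ) ≤ ⌊2 * t + 1⌋ + 1 - 1 := by
        have : (0 : ℤ) ≤ ⌊2 * t + 1⌋ := Int.floor_nonneg.2 (by linarith)
        omega
      have h7 : (((⌊2 * t + 1⌋ + 1 - 1).toNat : ℤ) : ℝ) = ((⌊2 * t + 1⌋ + 1 - 1 : ℤ) : ℝ) := by
        rw [Int.toNat_of_nonneg h6]
      have h8 : (((⌊2 * t + 1⌋ + 1 - 1).toNat : ℕ) : ℝ) = ((⌊2 * t + 1⌋ : ℤ) : ℝ) := by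
        rw [← Int.cast_natCast, h7]
        push_cast
        ring
      rw [h8]
      have := Int.floor_le (2 * t + 1)
      linarith
    calc (((⌊2 * t + 1⌋ + 1 - 1).toNat : ℕ) : ℝ) * (K * (3 * t)) ≤ (3 * t) * (K * (3 * t)) := by
          gcongr
      _ = 9 * K * t ^ 2 := by ring
  · intro γ hγ
    have hz := hS γ hγ
    have h3 := abs_le.1 (abs_sub_round γ)
    rw [Finset.mem_Icc]
    constructor
    · have : (0 : ℝ) < (round γ : ℝ) := by linarith [hz.1]
      have h4 : (0 : ℤ) < round γ := by exact_mod_cast this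
      omega
    · rw [Int.le_floor]
      linarith [hz.2.1]

/-- RSTL -/
theorem rstL : RstLStatement := by
  classical
  intro A a0 ha0 ha1
  obtain ⟨K, T1, hK, hT1, hcnt⟩ := count_zeros
  have hlim : Tendsto (fun T : ℝ => (T ^ (2 * a0)) ^ ((A + 4) / (2 * a0)) *
      Real.exp (-(1 / 100) * T ^ (2 * a0))) atTop (𝓝 0) :=
    (tendsto_rpow_mul_exp_neg_mul_atTop_nhds_zero ((A + 4) / (2 * a0)) (1 / 100)
      (by norm_num)).comp (tendsto_rpow_atTop (by linarith))
  obtain ⟨T2, hT2⟩ := Filter.eventually_atTop.1 (hlim.eventually (eventually_le_nhds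
    (show (0 : ℝ) < 1 by norm_num)))
  refine ⟨max (max (2 * T1) T2) (max (16 * K) 4), fun T t H hT hR b hb => ?_⟩
  have l1 : 2 * T1 ≤ T := ((le_max_left _ _).trans (le_max_left _ _)).trans hT
  have l2 : T2 ≤ T := ((le_max_right _ _).trans (le_max_left _ _)).trans hT
  have l3 : 16 * K ≤ T := ((le_max_left _ _).trans (le_max_right _ _)).trans hT
  have l4 : 4 ≤ T := ((le_max_right _ _).trans (le_max_right _ _)).trans hT
  have hT0 : 0 < T := by linarith
  obtain ⟨r1, r2, r3, r4⟩ := hR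
  have hH1 : 1 ≤ H := (Real.one_le_rpow (by linarith) ha0.le).trans r3
  have ht0 : 0 < t := by linarith
  have hfin : {γ : ℝ | γ ∈ zset t ∧ T / 10 ≤ |γ - t|}.Finite :=
    (zset_finite t).subset fun γ h => h.1
  rw [finsum_mem_eq_finite_toFinset_sum _ hfin]
  set E : ℝ := Real.exp (-(1 / 100) * T ^ (2 * a0)) with hE
  have hE0 : 0 < E := Real.exp_pos _
  have h1 : ∀ γ ∈ hfin.toFinset, (mz γ : ℝ) * wl t H γ * |b γ| ≤ (mz γ : ℝ) * (E * T ^ A) := by
    intro γ hγ
    rw [Set.Finite.mem_toFinset] at hγ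
    obtain ⟨hz, hd⟩ := hγ
    have h2 : wl t H γ ≤ E := by
      unfold wl
      rw [hE]
      apply Real.exp_le_exp.2
      have h3 : (T / 10) ^ 2 ≤ (γ - t) ^ 2 := by
        rw [← sq_abs (γ - t)]
        gcongr
      have h4 : H ^ 2 ≤ T ^ (2 * (1 - a0)) := by
        calc H ^ 2 ≤ (T ^ (1 - a0)) ^ 2 := by gcongr
          _ = T ^ (2 * (1 - a0)) := by
              rw [← Real.rpow_natCast, ← Real.rpow_mul hT0.le]
              congr 1
              push_cast
              ring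
      have h5 : T ^ (2 * a0) * T ^ (2 * (1 - a0)) = T ^ 2 := by
        rw [← Real.rpow_add hT0, ← Real.rpow_natCast]
        congr 1
        push_cast
        ring
      have h6 : 0 < H ^ 2 := by positivity
      have h7 : 1 / 100 * T ^ (2 * a0) ≤ (γ - t) ^ 2 / H ^ 2 := by
        rw [le_div_iff₀ h6]
        calc 1 / 100 * T ^ (2 * a0) * H ^ 2 ≤ 1 / 100 * T ^ (2 * a0) * T ^ (2 * (1 - a0)) := by
              gcongr
          _ = (T / 10) ^ 2 := by rw [mul_assoc, h5]; ring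
          _ ≤ (γ - t) ^ 2 := h3
      rw [neg_div]
      linarith
    have h3 := wl_nonneg t H γ
    rw [mul_assoc]
    gcongr
    exact hb γ hz
  refine (Finset.sum_le_sum h1).trans ?_
  rw [← Finset.sum_mul]
  have h2 := hcnt t (by linarith) hfin.toFinset (fun γ hγ => by
    rw [Set.Finite.mem_toFinset] at hγ
    exact hγ.1)
  have h3 : (T ^ (2 * a0)) ^ ((A + 4) / (2 * a0)) * E ≤ 1 := hT2 T l2
  have h4 : (T ^ (2 * a0)) ^ ((A + 4) / (2 * a0)) = T ^ A * T ^ 4 := by
    rw [← Real.rpow_mul hT0.le, mul_div_cancel₀ _ (by linarith), Real.rpow_add hT0]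
    congr 1
    rw [← Real.rpow_natCast]
    norm_num
  rw [h4] at h3
  have h5 : 0 < T ^ A := by positivity
  calc (∑ γ ∈ hfin.toFinset, (mz γ : ℝ)) * (E * T ^ A) ≤ (K * t ^ 2) * (E * T ^ A) := by gcongr
    _ ≤ (K * (4 * T) ^ 2) * (E * T ^ A) := by gcongr
    _ = (16 * K) * T ^ 2 * (E * T ^ A) := by ring
    _ ≤ T * T ^ 2 * (E * T ^ A) := by gcongr
    _ = (T ^ A * T ^ 4 * E) / T := by field_simp
    _ ≤ 1 / T := by gcongr

end Pool.Agent.Lib.MP_6bc78b_nt.LW.H59
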